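import Pool.Agent.Helper17.SA.St

/-!
# Project SA: module LEG (order of `p`-groups of permutations)
-/

set_option autoImplicit false

namespace Pool.Agent.Helper79.SA

open Equiv Pool.Agent.Helper17.SA

theorem pLEG : StLEG := by
  intro p j β _ L hp hj hcard hL
  have : Fact p.Prime := ⟨hp⟩
  obtain ⟨a, ha⟩ := IsPGroup.iff_card.mp hL
  have hp1 : 1 < p := hp.one_lt
  have hdvd : p ^ a ∣ (Fintype.card β).factorial := by
    rw [← ha]
    have h1 := Subgroup.card_subgroup_dvd_card L
    rw [Nat.card_perm, Nat.card_eq_fintype_card (α := β)] at h1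
    exact h1
  have hle : a ≤ padicValNat p (Fintype.card β).factorial :=
    (padicValNat_dvd_iff_le (Nat.factorial_ne_zero _)).mp hdvd
  have hN : Fintype.card β = p ^ (j - 1) * (p - 1) := by
    rw [hcard]
    obtain ⟨i, rfl⟩ : ∃ i, j = i + 1 := ⟨j - 1, by omega⟩
    rw [Nat.add_sub_cancel, pow_succ, Nat.mul_sub, mul_one]
  have hleg := sub_one_mul_padicValNat_factorial (p := p) (Fintype.card β)
  have hdig : (p.digits (Fintype.card β)).sum = p - 1 := by
    rw [hN, Nat.digits_base_pow_mul hp1 (by omega), Nat.digits_of_lt p (p - 1) (by omega) (by omega)]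
    simp
  rw [hdig] at hleg
  have hval : padicValNat p (Fintype.card β).factorial = p ^ (j - 1) - 1 := by
    have h1 : Fintype.card β - (p - 1) = (p - 1) * (p ^ (j - 1) - 1) := by
      rw [hN, Nat.mul_sub (p - 1), mul_one, mul_comm (p - 1)]
    rw [h1] at hleg
    exact Nat.eq_of_mul_eq_mul_left (by omega) hleg
  rw [ha]
  apply Nat.pow_le_pow_right (by omega)
  rw [← hval]
  exact hle

end Pool.Agent.Helper79.SA
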